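import Pool.Agent.Q283.EN.Stm3

/-!
# Project EN (helper283), job NUMA: numerical values of the law
-/

set_option autoImplicit false

namespace Pool.Agent.Q153.EN

open Filter Topology Finset
open Pool.Agent.Q283.EN

/-- the partial products -/
noncomputable def PP (x : ℝ) (n : ℕ) : ℝ := ∏ i ∈ range n, (1 - x ^ (2 * i + 1))

theorem PP_succ (x : ℝ) (n : ℕ) : PP x (n + 1) = PP x n * (1 - x ^ (2 * n + 1)) := by
  unfold PP
  rw [prod_range_succ]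

theorem fac {x : ℝ} (h0 : 0 < x) (h1 : x < 1) (n : ℕ) : 0 < 1 - x ^ (2 * n + 1) ∧ 1 - x ^ (2 * n + 1) ≤ 1 := by
  have h2 : x ^ (2 * n + 1) < 1 := pow_lt_one₀ h0.le h1 (by omega)
  have h3 : 0 < x ^ (2 * n + 1) := by positivity
  constructor <;> linarith

theorem PP_pos {x : ℝ} (h0 : 0 < x) (h1 : x < 1) (n : ℕ) : 0 < PP x n :=
  Finset.prod_pos fun i _ => (fac h0 h1 i).1

theorem PP_up {x : ℝ} (h0 : 0 < x) (h1 : x < 1) (n m : ℕ) : PP x (n + m) ≤ PP x n := by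
  induction m with
  | zero => exact le_refl _
  | succ m ih =>
    rw [← add_assoc, PP_succ]
    have h2 := fac h0 h1 (n + m)
    have h3 := PP_pos h0 h1 (n + m)
    nlinarith

theorem PP_lo {x : ℝ} (h0 : 0 < x) (h1 : x < 1) (n m : ℕ) :
    PP x n * (1 - x ^ (2 * n + 1) * (1 - x ^ (2 * m)) / (1 - x ^ 2)) ≤ PP x (n + m) := by
  have hx2 : x ^ 2 < 1 := pow_lt_one₀ h0.le h1 two_ne_zero
  have hd : 0 < 1 - x ^ 2 := by linarith
  induction m with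
  | zero => simp
  | succ m ih =>
    rw [← add_assoc, PP_succ]
    have h2 := fac h0 h1 (n + m)
    refine le_trans ?_ (mul_le_mul_of_nonneg_right ih h2.1.le)
    rw [mul_assoc]
    refine mul_le_mul_of_nonneg_left ?_ (PP_pos h0 h1 n).le
    have hm : x ^ (2 * m) ≤ 1 := pow_le_one₀ h0.le h1.le
    have hT : 0 ≤ x ^ (2 * n + 1) * (1 - x ^ (2 * m)) / (1 - x ^ 2) :=
      div_nonneg (mul_nonneg (by positivity) (by linarith)) hd.le
    have hb : 0 ≤ x ^ (2 * (n + m) + 1) := by positivity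
    have e1 : x ^ (2 * n + 1) * (1 - x ^ (2 * (m + 1))) / (1 - x ^ 2) =
        x ^ (2 * n + 1) * (1 - x ^ (2 * m)) / (1 - x ^ 2) + x ^ (2 * (n + m) + 1) := by
      rw [eq_comm, ← sub_eq_zero]
      field_simp
      ring
    rw [e1]
    nlinarith [mul_nonneg hT hb]

theorem tend {x : ℝ} (h0 : 0 < x) (h1 : x < 1) :
    Tendsto (PP x) atTop (𝓝 (∏' i : ℕ, (1 - x ^ (2 * i + 1)))) := by
  have hs : Summable fun i : ℕ => ‖-(x ^ (2 * i + 1))‖ := by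
    have h2 : Summable fun i : ℕ => (x ^ 2) ^ i * x :=
      (summable_geometric_of_lt_one (by positivity) (pow_lt_one₀ h0.le h1 two_ne_zero)).mul_right x
    refine h2.congr fun i => ?_
    rw [norm_neg, Real.norm_of_nonneg (by positivity)]
    ring
  have hm := multipliable_one_add_of_summable hs
  have h3 := hm.hasProd.tendsto_prod_nat
  simp only [← sub_eq_add_neg] at h3
  exact h3

theorem tp_le {x : ℝ} (h0 : 0 < x) (h1 : x < 1) (n : ℕ) : ∏' i : ℕ, (1 - x ^ (2 * i + 1)) ≤ PP x n := by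
  refine le_of_tendsto (tend h0 h1) ?_
  filter_upwards [eventually_ge_atTop n] with m hm
  obtain ⟨k, rfl⟩ := Nat.exists_eq_add_of_le hm
  exact PP_up h0 h1 n k

theorem le_tp {x : ℝ} (h0 : 0 < x) (h1 : x < 1) (n : ℕ) :
    PP x n * (1 - x ^ (2 * n + 1) / (1 - x ^ 2)) ≤ ∏' i : ℕ, (1 - x ^ (2 * i + 1)) := by
  have hx2 : x ^ 2 < 1 := pow_lt_one₀ h0.le h1 two_ne_zero
  have hd : 0 < 1 - x ^ 2 := by linarith
  refine ge_of_tendsto (tend h0 h1) ?_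
  filter_upwards [eventually_ge_atTop n] with m hm
  obtain ⟨k, rfl⟩ := Nat.exists_eq_add_of_le hm
  refine le_trans (mul_le_mul_of_nonneg_left ?_ (PP_pos h0 h1 n).le) (PP_lo h0 h1 n k)
  have h3 : x ^ (2 * n + 1) * (1 - x ^ (2 * k)) ≤ x ^ (2 * n + 1) := by
    have h4 : 0 ≤ x ^ (2 * k) := by positivity
    have h5 : 0 ≤ x ^ (2 * n + 1) := by positivity
    nlinarith
  have h6 := div_le_div_of_nonneg_right h3 hd.le
  linarith

theorem al_zero (p : ℕ) : al p 0 = ∏' i : ℕ, (1 - (1 / (p : ℝ)) ^ (2 * i + 1)) := by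
  unfold al
  rw [range_zero, prod_empty, div_one]

theorem al3 : 0.639 < al 3 0 ∧ al 3 0 < 0.6391 := by
  rw [al_zero]
  have h0 : (0 : ℝ) < 1 / ((3 : ℕ) : ℝ) := by norm_num
  have h1 : (1 : ℝ) / ((3 : ℕ) : ℝ) < 1 := by norm_num
  constructor
  · refine lt_of_lt_of_le ?_ (le_tp h0 h1 4)
    norm_num [PP, prod_range_succ]
  · refine lt_of_le_of_lt (tp_le h0 h1 4) ?_
    norm_num [PP, prod_range_succ]

theorem al2 : 0.4194 < al 2 0 ∧ al 2 0 < 0.4195 := by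
  rw [al_zero]
  have h0 : (0 : ℝ) < 1 / ((2 : ℕ) : ℝ) := by norm_num
  have h1 : (1 : ℝ) / ((2 : ℕ) : ℝ) < 1 := by norm_num
  constructor
  · refine lt_of_lt_of_le ?_ (le_tp h0 h1 6)
    norm_num [PP, prod_range_succ]
  · refine lt_of_le_of_lt (tp_le h0 h1 6) ?_
    norm_num [PP, prod_range_succ]

/-- the denominators -/
noncomputable def QQ (p r : ℕ) : ℝ := ∏ i ∈ range r, ((p : ℝ) ^ (i + 1) - 1)

theorem QQ_succ (p r : ℕ) : QQ p (r + 1) = QQ p r * ((p : ℝ) ^ (r + 1) - 1) := by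
  unfold QQ
  rw [prod_range_succ]

theorem QQ_pos {p : ℕ} (hp : 2 ≤ p) (r : ℕ) : 0 < QQ p r := by
  refine Finset.prod_pos fun i _ => ?_
  have h2 : (2 : ℝ) ≤ p := by exact_mod_cast hp
  have h3 : (1 : ℝ) < (p : ℝ) ^ (i + 1) := one_lt_pow₀ (by linarith) (by omega)
  linarith

theorem sum_bd {p : ℕ} (hp : 2 ≤ p) {n₀ : ℕ} (hn : 2 ≤ n₀) (m : ℕ) :
    ∑ r ∈ range (n₀ + m), (r : ℝ) / QQ p r + 2 * ((n₀ + m : ℕ) : ℝ) / QQ p (n₀ + m) ≤
      ∑ r ∈ range n₀, (r : ℝ) / QQ p r + 2 * (n₀ : ℝ) / QQ p n₀ := by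
  induction m with
  | zero => exact le_refl _
  | succ m ih =>
    refine le_trans ?_ ih
    rw [← add_assoc, sum_range_succ, QQ_succ]
    obtain ⟨n, hn2⟩ : ∃ n, n = n₀ + m := ⟨_, rfl⟩
    rw [← hn2]
    have hq := QQ_pos hp n
    have h2 : (2 : ℝ) ≤ p := by exact_mod_cast hp
    have hn3 : (2 : ℝ) ≤ n := by exact_mod_cast (by omega : 2 ≤ n)
    have h4 : (8 : ℝ) ≤ (p : ℝ) ^ (n + 1) := by
      calc (8 : ℝ) = 2 ^ 3 := by norm_num
        _ ≤ (p : ℝ) ^ 3 := by gcongr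
        _ ≤ (p : ℝ) ^ (n + 1) := pow_le_pow_right₀ (by linarith) (by omega)
    have h5 : 2 * ((n + 1 : ℕ) : ℝ) / (QQ p n * ((p : ℝ) ^ (n + 1) - 1)) ≤ (n : ℝ) / QQ p n := by
      rw [div_le_div_iff₀ (mul_pos hq (by linarith)) hq]
      push_cast
      have h6 : 2 * ((n : ℝ) + 1) ≤ n * ((p : ℝ) ^ (n + 1) - 1) := by nlinarith
      nlinarith [mul_le_mul_of_nonneg_right h6 hq.le]
    have h7 : 2 * (n : ℝ) / QQ p n = (n : ℝ) / QQ p n + (n : ℝ) / QQ p n := by ring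
    rw [h7]
    linarith

theorem tsum_bd {p : ℕ} (hp : 2 ≤ p) {n₀ : ℕ} (hn : 2 ≤ n₀) :
    ∑' r : ℕ, (r : ℝ) / QQ p r ≤ ∑ r ∈ range n₀, (r : ℝ) / QQ p r + 2 * (n₀ : ℝ) / QQ p n₀ := by
  have hnn : ∀ r : ℕ, 0 ≤ (r : ℝ) / QQ p r := fun r => div_nonneg (Nat.cast_nonneg _) (QQ_pos hp r).le
  refine Real.tsum_le_of_sum_range_le hnn fun n => ?_
  have h1 : ∑ r ∈ range n, (r : ℝ) / QQ p r ≤ ∑ r ∈ range (n₀ + n), (r : ℝ) / QQ p r :=
    Finset.sum_le_sum_of_subset_of_nonneg (Finset.range_mono (by omega)) fun r _ _ => hnn r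
  have h2 := sum_bd hp hn n
  have h3 : 0 ≤ 2 * ((n₀ + n : ℕ) : ℝ) / QQ p (n₀ + n) :=
    div_nonneg (by positivity) (QQ_pos hp _).le
  linarith

theorem avg_eq (p : ℕ) : avg p = al p 0 * ∑' r : ℕ, (r : ℝ) / QQ p r := by
  unfold avg
  rw [← tsum_mul_left]
  refine tsum_congr fun r => ?_
  rw [al_zero]
  unfold al QQ
  ring

theorem numa : S_NUMA := by
  refine ⟨al3, al2, ?_, ?_⟩
  · rw [avg_eq]
    have h1 := tsum_bd (p := 3) (by norm_num) (n₀ := 5) (by norm_num)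
    have h2 : ∑ r ∈ range 5, (r : ℝ) / QQ 3 r + 2 * ((5 : ℕ) : ℝ) / QQ 3 5 < 0.6324 := by
      norm_num [QQ, prod_range_succ, sum_range_succ]
    have h3 := al3
    have h4 : ∑' r : ℕ, (r : ℝ) / QQ 3 r < 0.6324 := lt_of_le_of_lt h1 h2
    nlinarith
  · rw [avg_eq]
    have h1 := tsum_bd (p := 2) (by norm_num) (n₀ := 6) (by norm_num)
    have h2 : ∑ r ∈ range 6, (r : ℝ) / QQ 2 r + 2 * ((6 : ℕ) : ℝ) / QQ 2 6 < 1.8228 := by
      norm_num [QQ, prod_range_succ, sum_range_succ]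
    have h3 := al2
    have h4 : ∑' r : ℕ, (r : ℝ) / QQ 2 r < 1.8228 := lt_of_le_of_lt h1 h2
    nlinarith

end Pool.Agent.Q153.EN
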