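import Pool.Agent.Q283.EN.Stm
import Pool.Agent.Q262.LK.NDG
import Pool.Agent.Q262.LK.NRM

/-!
# Project EN (helper283), job FRM: the sum of the Hilbert symbols at the small places is the form `BB g`
-/

set_option autoImplicit false

namespace Pool.Agent.Q153.EN

open NumberField IsDedekindDomain Filter Topology Finset Polynomial
open Pool.Agent.Q283.LQ (Sm Box Nest nS)
open Pool.Agent.Q7.LK
open Pool.Agent.Q283.EN
open Pool.Agent.Q265.LK
open Pool.Agent.Q262.LK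
open Pool.Agent.Q96.LQ (finS)

section

variable {F : Type} [Field F] [NumberField F]

/-- the quadratic extension and the norm of the square root -/
theorem ex_kum2 {a : F} (ha : a ≠ 0) (h : ¬ IsPow 2 a) :
    ∃ (M : Type) (_ : Field M) (_ : NumberField M) (_ : Algebra F M), Kum 2 F M a ∧
      ∃ y : M, y ≠ 0 ∧ Algebra.norm F y = - a := by
  haveI : Fact (Nat.Prime 2) := ⟨Nat.prime_two⟩
  have hirr : Irreducible (X ^ 2 - C a : F[X]) :=
    X_pow_sub_C_irreducible_of_prime Nat.prime_two fun b hb => h ⟨b, hb.symm⟩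
  haveI : Fact (Irreducible (X ^ 2 - C a : F[X])) := ⟨hirr⟩
  haveI hfin : FiniteDimensional F (AdjoinRoot (X ^ 2 - C a : F[X])) :=
    Module.Finite.of_basis (bs 2 two_ne_zero a)
  haveI : CharZero (AdjoinRoot (X ^ 2 - C a : F[X])) := charZero_of_injective_algebraMap
    (algebraMap F (AdjoinRoot (X ^ 2 - C a : F[X]))).injective
  haveI : FiniteDimensional ℚ (AdjoinRoot (X ^ 2 - C a : F[X])) := FiniteDimensional.trans ℚ F _
  haveI : NumberField (AdjoinRoot (X ^ 2 - C a : F[X])) := { }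
  have hn : Algebra.norm F (el 2 a ![0, 1]) = - a := by
    rw [norm_el 2 two_ne_zero a, Nf, Fin.sum_univ_two, Matrix.det_fin_two]
    simp [Mc]
  refine ⟨AdjoinRoot (X ^ 2 - C a : F[X]), inferInstance, inferInstance, inferInstance, ?_, el 2 a ![0, 1],
    ?_, hn⟩
  · exact { deg := by
              rw [Module.finrank_eq_card_basis (bs 2 two_ne_zero a), Fintype.card_fin]
            root := ⟨AdjoinRoot.root _, root_pow 2 a⟩ }
  · intro h0
    rw [h0, Algebra.norm_zero] at hn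
    exact ha (neg_eq_zero.1 hn.symm)

variable {p : ℕ} [Fact p.Prime] {ζ : F} {t : HeightOneSpectrum (𝓞 F) → F → F → ZMod p}

theorem t_self (hB : S_BAS) (hi : Hi p F) (ht : Hilb p ζ t) (v : HeightOneSpectrum (𝓞 F)) {a : F} (ha : a ≠ 0) :
    t v a a = 0 := by
  have hp : p.Prime := Fact.out
  by_cases h2 : p = 2
  · subst h2
    obtain ⟨i, hi2⟩ := hi rfl
    by_cases hsq : IsPow 2 a
    · obtain ⟨b, hb⟩ := hsq
      have hb0 : b ≠ 0 := by
        rintro rfl
        exact ha (by rw [hb]; simp)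
      refine ht.pow v a a ?_ ha
      rw [hb]
      exact lpw_pow hB v hb0
    · obtain ⟨M, _, _, _, hK, y, hy, hn⟩ := ex_kum2 ha hsq
      have h1 := ht.nrm a ha M hK y hy v
      rw [hn] at h1
      have hi0 : i ≠ 0 := by
        rintro rfl
        norm_num at hi2
      have h3 := ht.mul v (i ^ 2) a a (pow_ne_zero 2 hi0) ha ha
      rw [ht.pow v (i ^ 2) a (lpw_pow hB v hi0) ha, zero_add, hi2, neg_one_mul, h1] at h3
      exact h3.symm
  · have h1 := ht.anti v a a ha ha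
    have h3 : (2 : ZMod p) * t v a a = 0 := by linear_combination h1
    have h4 : (2 : ZMod p) ≠ 0 := by
      intro h
      have h5 : ((2 : ℕ) : ZMod p) = 0 := by exact_mod_cast h
      rw [ZMod.natCast_eq_zero_iff] at h5
      exact h2 ((Nat.prime_dvd_prime_iff_eq hp Nat.prime_two).1 h5)
    exact (mul_eq_zero.1 h3).resolve_left h4

theorem TT_self (hB : S_BAS) (hi : Hi p F) (ht : Hilb p ζ t) (y : ℕ) {a : F} (ha : a ≠ 0) : TT t y a a = 0 :=
  Finset.sum_eq_zero fun v _ => t_self hB hi ht v ha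

/-- reciprocity with two exceptional primes -/
theorem TT_out2 (ht : Hilb p ζ t) (y : ℕ) {a c : F} (ha : a ≠ 0) (hc : c ≠ 0) (q q' : HeightOneSpectrum (𝓞 F))
    (hq : ¬ Sm y q) (hq' : ¬ Sm y q') (hne : q ≠ q') (h : ∀ w, ¬ Sm y w → w ≠ q → w ≠ q' → t w a c = 0) :
    TT t y a c = - t q a c - t q' a c := by
  classical
  have h1 := (ht.sum a c ha hc).2
  have h2 : ∑ᶠ w, t w a c = ∑ w ∈ insert q (insert q' (finS (F := F) y).toFinset), t w a c := by
    refine finsum_eq_sum_of_support_subset _ ?_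
    intro w hw
    rw [Finset.mem_coe, Finset.mem_insert, Finset.mem_insert]
    by_contra hcon
    push Not at hcon
    exact hw (h w (fun hs => hcon.2.2 ((finS y).mem_toFinset.2 hs)) hcon.1 hcon.2.1)
  rw [h2, Finset.sum_insert, Finset.sum_insert (fun hs => hq' ((finS y).mem_toFinset.1 hs))] at h1
  · unfold TT
    linear_combination h1
  · intro hs
    rcases Finset.mem_insert.1 hs with hs | hs
    · exact hne hs
    · exact hq ((finS y).mem_toFinset.1 hs)

theorem TT_div (ht : Hilb p ζ t) (y : ℕ) {a b c : F} (ha : a ≠ 0) (hb : b ≠ 0) (hc : c ≠ 0) :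
    TT t y (a / b) c = TT t y a c - TT t y b c := by
  have h := TT_mul ht y (div_ne_zero ha hb) hb hc
  rw [div_mul_cancel₀ _ hb] at h
  rw [h]
  ring

theorem TT_div_r (ht : Hilb p ζ t) (y : ℕ) {a b c : F} (ha : a ≠ 0) (hb : b ≠ 0) (hc : c ≠ 0) :
    TT t y c (a / b) = TT t y c a - TT t y c b := by
  rw [TT_anti ht y hc (div_ne_zero ha hb), TT_div ht y ha hb hc, TT_anti ht y hc ha, TT_anti ht y hc hb]
  ring

/-- the symbol depends only on the classes -/
theorem TT_cls (ht : Hilb p ζ t) (y : ℕ) {a b c : F} (hb : b ≠ 0) (hc : c ≠ 0) (h : Nn p y (a / b)) :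
    TT t y a c = TT t y b c := by
  have hab : a / b ≠ 0 := h.1
  have h1 := TT_mul ht y hab hb hc
  rw [div_mul_cancel₀ _ hb, TT_anti ht y hab hc, TT_nn ht y h hc, neg_zero, zero_add] at h1
  exact h1

theorem TT_cls_r (ht : Hilb p ζ t) (y : ℕ) {a b c : F} (ha : a ≠ 0) (hb : b ≠ 0) (hc : c ≠ 0) (h : Nn p y (a / b)) :
    TT t y c a = TT t y c b := by
  rw [TT_anti ht y hc ha, TT_anti ht y hc hb, TT_cls ht y hb hc h]

variable {y f : ℕ} {u r : Fin f → F} {π : HeightOneSpectrum (𝓞 F) → F}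
  {g : (Fin f → ZMod p) → (Fin f → ZMod p) → ZMod p}

theorem ndp (B : Base p ζ y f u r π g) {w : HeightOneSpectrum (𝓞 F)} (hw : ¬ Sm y w) : ¬ Dp p w :=
  fun h => hw ⟨p, Fact.out, B.two, h⟩

theorem t_unit (ht : Hilb p ζ t) (B : Base p ζ y f u r π g) {w : HeightOneSpectrum (𝓞 F)} (hw : ¬ Sm y w)
    {a : F} (ha : a ≠ 0) {c : F} (hc : c ≠ 0) (hv : vl p w c = 0) : t w a c = vl p w a * sy p ζ w c :=
  ht.unr w (ndp B hw) c hc hv a ha

theorem huu (ht : Hilb p ζ t) (B : Base p ζ y f u r π g) (m l : Fin f) : TT t y (u m) (u l) = 0 := by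
  refine TT_zero ht y (B.ue m) (B.ue l) fun w hw => ?_
  rw [t_unit ht B hw (B.ue m) (B.ue l) (B.uo l w hw), B.uo m w hw, zero_mul]

theorem huP (ht : Hilb p ζ t) (B : Base p ζ y f u r π g) (m : Fin f) {q : HeightOneSpectrum (𝓞 F)}
    (hq : ¬ Sm y q) : TT t y (u m) (π q) = sy p ζ q (u m) := by
  obtain ⟨h0, hv⟩ := B.po q hq
  have h1 : ∀ w, ¬ Sm y w → t w (u m) (π q) = - (vl p w (π q) * sy p ζ w (u m)) := by
    intro w hw
    rw [ht.anti w (u m) (π q) (B.ue m) h0, t_unit ht B hw h0 (B.ue m) (B.uo m w hw)]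
  rw [TT_out ht y (B.ue m) h0 q hq, h1 q hq, hv q hq, if_pos rfl, one_mul, neg_neg]
  intro w hw hne
  rw [h1 w hw, hv w hw, if_neg hne, zero_mul, neg_zero]

theorem hPP (ht : Hilb p ζ t) (B : Base p ζ y f u r π g) {q q' : HeightOneSpectrum (𝓞 F)}
    (hq : ¬ Sm y q) (hq' : ¬ Sm y q') (hne : q ≠ q') : TT t y (π q) (π q') =
      g (fun l => sy p ζ q (u l)) (fun l => sy p ζ q' (u l)) := by
  obtain ⟨h0, hv⟩ := B.po q hq
  obtain ⟨h0', hv'⟩ := B.po q' hq'
  rw [TT_out2 ht y h0 h0' q q' hq hq' hne, t_unit ht B hq h0 h0' (by rw [hv' q hq, if_neg hne]),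
    ht.anti q' (π q) (π q') h0 h0',
    t_unit ht B hq' h0' h0 (by rw [hv q' hq', if_neg (Ne.symm hne)]), hv q hq, hv' q' hq', if_pos rfl,
    if_pos rfl, ← B.rcp q q' hq hq' hne]
  · ring
  · intro w hw h1 h2
    rw [t_unit ht B hw h0 h0' (by rw [hv' w hw, if_neg h2]), hv w hw, if_neg h1, zero_mul]

theorem hmm (hB : S_BAS) (ht : Hilb p ζ t) (B : Base p ζ y f u r π g) (c c' : Fin f → ZMod p) :
    TT t y (mon u c) (mon u c') = 0 := by
  rw [TT_mon hB ht y B.ue c' (mon_ne u B.ue c)]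
  refine Finset.sum_eq_zero fun l _ => ?_
  rw [TT_anti ht y (mon_ne u B.ue c) (B.ue l), TT_mon hB ht y B.ue c (B.ue l)]
  simp only [huu ht B, mul_zero, Finset.sum_const_zero, neg_zero]

theorem hPm (hB : S_BAS) (ht : Hilb p ζ t) (B : Base p ζ y f u r π g) {q : HeightOneSpectrum (𝓞 F)}
    (hq : ¬ Sm y q) (c : Fin f → ZMod p) :
    TT t y (π q) (mon u c) = - dot (fun l => sy p ζ q (u l)) c := by
  obtain ⟨h0, hv⟩ := B.po q hq
  rw [TT_mon hB ht y B.ue c h0, dot, ← Finset.sum_neg_distrib]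
  refine Finset.sum_congr rfl fun l _ => ?_
  rw [TT_anti ht y h0 (B.ue l), huP ht B l hq]
  ring

theorem hmP (hB : S_BAS) (ht : Hilb p ζ t) (B : Base p ζ y f u r π g) {q : HeightOneSpectrum (𝓞 F)}
    (hq : ¬ Sm y q) (c : Fin f → ZMod p) :
    TT t y (mon u c) (π q) = dot (fun l => sy p ζ q (u l)) c := by
  rw [TT_anti ht y (mon_ne u B.ue c) (B.po q hq).1, hPm hB ht B hq, neg_neg]

/-- primes with given symbols -/
theorem exq (hC : S_CHEB) (hζ : IsPrimitiveRoot ζ p) (B : Base p ζ y f u r π g) (φ : Fin f → ZMod p)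
    (T : Finset (HeightOneSpectrum (𝓞 F))) : ∃ q, ¬ Sm y q ∧ q ∉ T ∧ (fun l => sy p ζ q (u l)) = φ := by
  obtain ⟨q, hq, hqs⟩ := exists_q hC hζ u B.ue B.ind φ ((finS (F := F) y).union T.finite_toSet)
  refine ⟨q, fun h => hq (Or.inl h), fun h => hq (Or.inr h), funext hqs⟩

theorem ncls (hB : S_BAS) (B : Base p ζ y f u r π g) {q : HeightOneSpectrum (𝓞 F)} (hq : ¬ Sm y q) {a : F}
    {x : (Fin f → ZMod p) × (Fin f → ZMod p)} (hx : Nn p y (a * mon r x.1 * mon u x.2))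
    (hs : (fun l => sy p ζ q (u l)) = x.1) : Nn p y (a / (π q / mon u x.2)) := by
  have h1 := Nn_div hB hx (B.pc q hq)
  rw [hs] at h1
  have e : a / (π q / mon u x.2) = a * mon r x.1 * mon u x.2 / (π q * mon r x.1) := by
    have h2 := (B.po q hq).1
    have h3 := mon_ne u B.ue x.2
    have h4 := mon_ne r B.re x.1
    field_simp
  rw [e]
  exact h1

end

theorem frm (hBAS : S_BAS) (hCHEB : S_CHEB) : S_FRM := by
  classical
  intro p _ F _ _ ζ hζ hi t ht y f u r π g B hfin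
  have hTT : ∀ a b : F, ∑ᶠ v : {v : HeightOneSpectrum (𝓞 F) // Sm y v}, t v.1 a b = TT t y a b := by
    intro a b
    have h1 := finsum_set_coe_eq_finsum_mem (f := fun v => t v a b) {v : HeightOneSpectrum (𝓞 F) | Sm y v}
    have h2 := finsum_mem_eq_finite_toFinset_sum (fun v => t v a b) (finS (F := F) y)
    exact h1.trans h2
  have hπ0 : ∀ q, ¬ Sm y q → π q ≠ 0 := fun q hq => (B.po q hq).1
  refine ⟨⟨?_, ?_, ?_⟩, ?_⟩
  · intro a b c
    obtain ⟨q1, h1, -, s1⟩ := exq hCHEB hζ B a ∅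
    obtain ⟨q2, h2, -, s2⟩ := exq hCHEB hζ B b ∅
    obtain ⟨q3, h3, -, s3⟩ := exq hCHEB hζ B (a + b) ∅
    obtain ⟨q, hq, hqT, s⟩ := exq hCHEB hζ B c {q1, q2, q3}
    simp only [Finset.mem_insert, Finset.mem_singleton, not_or] at hqT
    have e1 := hPP ht B h1 hq (Ne.symm hqT.1)
    have e2 := hPP ht B h2 hq (Ne.symm hqT.2.1)
    have e3 := hPP ht B h3 hq (Ne.symm hqT.2.2)
    rw [s1, s] at e1
    rw [s2, s] at e2
    rw [s3, s] at e3
    rw [← e1, ← e2, ← e3, ← TT_mul ht y (hπ0 q1 h1) (hπ0 q2 h2) (hπ0 q hq)]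
    symm
    refine TT_cls ht y (hπ0 q3 h3) (hπ0 q hq) ?_
    have n1 := B.pc q1 h1
    have n2 := B.pc q2 h2
    have n3 := B.pc q3 h3
    rw [s1] at n1
    rw [s2] at n2
    rw [s3] at n3
    have n4 := Nn_div hBAS (Nn_mul hBAS n1 n2) n3
    obtain ⟨z, hz, hzz⟩ := mon_mul r B.re a b
    refine Nn_cancel hBAS hz ?_
    have e : z ^ p * (π q1 * π q2 / π q3) = π q1 * mon r a * (π q2 * mon r b) / (π q3 * mon r (a + b)) := by
      have g1 := hπ0 q3 h3
      have g2 := mon_ne r B.re (a + b)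
      rw [mul_div_assoc', div_eq_div_iff g1 (mul_ne_zero g1 g2)]
      linear_combination (-(π q1 * π q2 * π q3)) * hzz
    rw [e]
    exact n4
  · intro a b
    obtain ⟨q1, h1, -, s1⟩ := exq hCHEB hζ B a ∅
    obtain ⟨q2, h2, h12, s2⟩ := exq hCHEB hζ B b {q1}
    rw [Finset.mem_singleton] at h12
    have e1 := hPP ht B h1 h2 (Ne.symm h12)
    have e2 := hPP ht B h2 h1 h12
    rw [s1, s2] at e1
    rw [s1, s2] at e2
    rw [← e1, ← e2]
    exact TT_anti ht y (hπ0 q1 h1) (hπ0 q2 h2)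
  · intro a
    obtain ⟨q1, h1, -, s1⟩ := exq hCHEB hζ B a ∅
    obtain ⟨q2, h2, h12, s2⟩ := exq hCHEB hζ B a {q1}
    rw [Finset.mem_singleton] at h12
    have e1 := hPP ht B h2 h1 h12
    rw [s1, s2] at e1
    rw [← e1, ← TT_self hBAS hi ht y (hπ0 q1 h1)]
    refine TT_cls ht y (hπ0 q1 h1) (hπ0 q1 h1) ?_
    have n1 := B.pc q1 h1
    have n2 := B.pc q2 h2
    rw [s1] at n1
    rw [s2] at n2
    have n3 := Nn_div hBAS n2 n1
    rwa [mul_div_mul_right _ _ (mon_ne r B.re a)] at n3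
  · intro a b x x' ha hb hx hx'
    rw [hTT]
    obtain ⟨q, hq, -, s⟩ := exq hCHEB hζ B x.1 ∅
    obtain ⟨q', hq', hne, s'⟩ := exq hCHEB hζ B x'.1 {q}
    rw [Finset.mem_singleton] at hne
    have m0 := mon_ne u B.ue x.2
    have m0' := mon_ne u B.ue x'.2
    have n1 := ncls hBAS B hq hx s
    have n2 := ncls hBAS B hq' hx' s'
    have e0 : π q / mon u x.2 ≠ 0 := div_ne_zero (hπ0 q hq) m0
    have e0' : π q' / mon u x'.2 ≠ 0 := div_ne_zero (hπ0 q' hq') m0'
    rw [TT_cls ht y e0 hb n1, TT_cls_r ht y hb e0' e0 n2, TT_div ht y (hπ0 q hq) m0 e0',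
      TT_div_r ht y (hπ0 q' hq') m0' (hπ0 q hq), TT_div_r ht y (hπ0 q' hq') m0' m0,
      hPP ht B hq hq' (Ne.symm hne), hPm hBAS ht B hq, hmP hBAS ht B hq', hmm hBAS ht B, s, s', BB]
    ring

end Pool.Agent.Q153.EN
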