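import Pool.Agent.Q283.EN.Stm2
import Pool.Agent.Q14.LK.Share
import Pool.Agent.Q265.LK.Bas2

/-!
# Project EN (helper283), job QLAW: the law for the quartic twists
-/

set_option autoImplicit false

namespace Pool.Agent.Q153.EN

open NumberField IsDedekindDomain Filter Topology Finset
open Pool.Agent.Q283.LQ (Sm Box Nest nS)
open Pool.Agent.Q7.LK
open Pool.Agent.Q283.EN
open Pool.Agent.Q265.LK
open Pool.Agent.Q14.LK (nest_mono)

section

variable {F : Type} [Field F] [NumberField F]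

theorem lpw_inv4 {p : ℕ} {v : HeightOneSpectrum (𝓞 F)} {a : F} (h : Lpw p v a) : Lpw p v a⁻¹ := by
  intro n
  obtain ⟨x, hx⟩ := h n
  have h1 : v.valuation F (a * x ^ p - 1) < 1 := by
    refine lt_of_lt_of_le hx ?_
    rw [← WithZero.exp_zero, WithZero.exp_le_exp]
    omega
  have h2 : v.valuation F (a * x ^ p) = 1 := by
    have := (v.valuation F).map_one_add_of_lt h1
    rwa [add_sub_cancel] at this
  have h3 : a * x ^ p ≠ 0 := by
    intro h0
    rw [h0, map_zero] at h2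
    exact zero_ne_one h2
  refine ⟨x⁻¹, ?_⟩
  have h4 : a⁻¹ * x⁻¹ ^ p - 1 = -(a * x ^ p - 1) / (a * x ^ p) := by
    rw [inv_pow, ← mul_inv, neg_sub, sub_div, div_self h3, one_div]
  rw [h4, map_div₀, Valuation.map_neg, h2, div_one]
  exact hx

theorem lpw_24 {v : HeightOneSpectrum (𝓞 F)} {a : F} (h : Lpw 4 v a) : Lpw 2 v a := by
  intro n
  obtain ⟨x, hx⟩ := h n
  refine ⟨x ^ 2, ?_⟩
  rwa [← pow_mul]

theorem vl_q4 (hB : S_BAS) {v : HeightOneSpectrum (𝓞 F)} {D : F} (h : Q4 v D) : vl 2 v D = 0 := by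
  haveI : Fact (Nat.Prime 2) := ⟨Nat.prime_two⟩
  obtain ⟨x, hx⟩ := h
  have h0 : D * x ^ 4 ≠ 0 := by
    intro h0
    rw [h0, map_zero] at hx
    exact zero_ne_one hx
  have hD : D ≠ 0 := left_ne_zero_of_mul h0
  have hx0 : x ≠ 0 := by
    rintro rfl
    exact h0 (by simp)
  have h1 := vl_of_val_one (p := 2) v hx
  rw [vl_mul hB v hD (pow_ne_zero _ hx0), vl_pow hB v hx0] at h1
  have h2 : ((4 : ℕ) : ZMod 2) = 0 := rfl
  rw [h2, zero_mul, add_zero] at h1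
  exact h1

theorem fit_vl {y : ℕ} {D0 : F} {k : ℕ} {q : Fin k → HeightOneSpectrum (𝓞 F)} (hq : Function.Injective q) {D : F}
    (h : Fits 2 y D0 (fun _ => 1) q D) :
    (∀ i, ¬ Sm y (q i) → vl 2 (q i) D = 1) ∧
      ∀ v : HeightOneSpectrum (𝓞 F), ¬ Sm y v → (∀ i, q i ≠ v) → vl 2 v D = 0 := by
  constructor
  · intro i hi
    rw [h.ram _ hi, Finset.sum_eq_single i]
    · rw [if_pos rfl]
    · intro j _ hj
      rw [if_neg fun e => hj (hq e)]
    · intro h0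
      exact absurd (Finset.mem_univ i) h0
  · intro v hv hv2
    rw [h.ram _ hv]
    exact Finset.sum_eq_zero fun i _ => if_neg (hv2 i)

theorem fits_of_q (hB : S_BAS) {y : ℕ} {D0 : F} {k : ℕ} {q : Fin k → HeightOneSpectrum (𝓞 F)}
    (hq : Function.Injective q) {D : F} (h : QFits y D0 q D) : Fits 2 y D0 (fun _ => 1) q D := by
  refine { ne := h.ne, ram := ?_, loc := fun v hv => lpw_24 (h.loc v hv) }
  intro v hv
  by_cases hv2 : ∃ i, q i = v
  · obtain ⟨i, rfl⟩ := hv2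
    rw [h.ram i, Finset.sum_eq_single i]
    · rw [if_pos rfl]
    · intro j _ hj
      rw [if_neg fun e => hj (hq e)]
    · intro h0
      exact absurd (Finset.mem_univ i) h0
  · push Not at hv2
    rw [vl_q4 hB (h.unr v hv hv2)]
    exact (Finset.sum_eq_zero fun i _ => if_neg (hv2 i)).symm

theorem condX_sq (hB : S_BAS) {y : ℕ} {A : HeightOneSpectrum (𝓞 F) → F → Prop} {D s a : F} (hD : D ≠ 0) (hs : s ≠ 0)
    (h : CondX 2 y A D a) : CondX 2 y A (D * s ^ 2) a := by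
  haveI : Fact (Nat.Prime 2) := ⟨Nat.prime_two⟩
  have hvl : ∀ v : HeightOneSpectrum (𝓞 F), vl 2 v (D * s ^ 2) = vl 2 v D := by
    intro v
    rw [vl_mul hB v hD (pow_ne_zero _ hs), vl_ppow hB v hs, add_zero]
  refine { ne := h.ne, unr := fun v hv h0 => h.unr v hv (by rw [← hvl]; exact h0), ram := fun v hv h0 => ?_,
           loc := h.loc }
  obtain ⟨j, hj⟩ := h.ram v hv (by rw [← hvl]; exact h0)
  refine ⟨j, ?_⟩
  have h1 := lpw_mul hB hj (lpw_pow hB v (pow_ne_zero j hs))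
  have h2 : a * D ^ j * (s ^ j) ^ 2 = a * (D * s ^ 2) ^ j := by ring
  rwa [h2] at h1

theorem fits_sq (hB : S_BAS) {y : ℕ} (hy2 : ∀ x : F, x ≠ 0 → (∀ v : HeightOneSpectrum (𝓞 F), ¬ Sm y v → vl 2 v x = 0) →
      (∀ v : HeightOneSpectrum (𝓞 F), Sm y v → Lpw 2 v x) → IsPow 2 x) {D0 : F} (hD0 : D0 ≠ 0) {k : ℕ}
    {q : Fin k → HeightOneSpectrum (𝓞 F)} {D D' : F}
    (h : Fits 2 y D0 (fun _ => 1) q D) (h' : Fits 2 y D0 (fun _ => 1) q D') : ∃ s, s ≠ 0 ∧ D' = D * s ^ 2 := by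
  haveI : Fact (Nat.Prime 2) := ⟨Nat.prime_two⟩
  obtain ⟨s, hs⟩ := hy2 (D' / D) (div_ne_zero h'.ne h.ne) (fun v hv => by
    rw [vl_div hB v h'.ne h.ne, h.ram v hv, h'.ram v hv, sub_self]) (fun v hv => by
    have h1 := lpw_div hB (h'.loc v hv) (h.loc v hv)
    have h2 : D' / D0 / (D / D0) = D' / D := by
      have := h.ne
      field_simp
    rwa [h2] at h1)
  refine ⟨s, ?_, ?_⟩
  · rintro rfl
    rw [zero_pow two_ne_zero] at hs
    exact div_ne_zero h'.ne h.ne hs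
  · rw [← hs, mul_div_cancel₀ _ h.ne]

theorem cond_iff (hB : S_BAS) (hQLOC : S_QLOC) (hQCX : S_QCX) {i : F} (hi : i ^ 2 = -1) (hζ : IsPrimitiveRoot (-1 : F) 2)
    {y : ℕ} (hy : 2 ≤ y) {D0 : F} (hD0 : D0 ≠ 0) {k : ℕ} {q : Fin k → HeightOneSpectrum (𝓞 F)} (hq : Function.Injective q)
    (hqs : ∀ i, ¬ Sm y (q i)) {D : F} (h : QFits y D0 q D) (v0 : HeightOneSpectrum (𝓞 F)) (a : F) :
    (∀ v, AQ v D a) ↔ CondX 2 y (fun v => AQ v D0) D a := by
  have hDp : ∀ v : HeightOneSpectrum (𝓞 F), ¬ Sm y v → ¬ Dp 2 v := fun v hv h2 => hv ⟨2, Nat.prime_two, hy, h2⟩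
  have hf := fits_of_q hB hq h
  obtain ⟨f1, f2⟩ := fit_vl hq hf
  have hD := h.ne
  constructor
  · intro ha
    have ha0 : a ≠ 0 := (ha v0).1
    refine { ne := ha0, unr := ?_, ram := ?_, loc := ?_ }
    · intro v hv h0
      have h1 : ∀ i, q i ≠ v := by
        rintro i rfl
        rw [f1 i hv] at h0
        exact one_ne_zero h0
      exact ((hQCX F i (-1) hi hζ v D a (hDp v hv) hD ha0).1 (h.unr v hv h1)).1 (ha v)
    · intro v hv h0
      exact ((hQCX F i (-1) hi hζ v D a (hDp v hv) hD ha0).2 h0).1 (ha v)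
    · intro v hv
      have h1 := (hQLOC F i hi v D hD).2.1 (D / D0)⁻¹ a (lpw_inv4 (h.loc v hv)) (ha v)
      have h2 : D * (D / D0)⁻¹ = D0 := by field_simp
      rwa [h2] at h1
  · intro hc v
    by_cases hv : Sm y v
    · have h1 := (hQLOC F i hi v D0 hD0).2.1 (D / D0) a (h.loc v hv) (hc.loc v hv)
      have h2 : D0 * (D / D0) = D := by field_simp
      rwa [h2] at h1
    · by_cases h0 : vl 2 v D = 0
      · have h1 : ∀ i, q i ≠ v := by
          rintro i rfl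
          rw [f1 i hv] at h0
          exact one_ne_zero h0
        exact ((hQCX F i (-1) hi hζ v D a (hDp v hv) hD hc.ne).1 (h.unr v hv h1)).2 (hc.unr v hv h0)
      · exact ((hQCX F i (-1) hi hζ v D a (hDp v hv) hD hc.ne).2 h0).2 (hc.ram v hv h0)

end

/-- real numbers: the mean -/
theorem ar1 {ε e nF nQ x : ℝ} (hε : 0 < ε) (he : 0 < e) (he1 : e * (3 + ε) ≤ ε) (hQ : 0 ≤ nQ) (hF0 : 0 ≤ nF)
    (hF : nF ≤ nQ + e * nF) (hx : x ≤ (2 + e) * 2 * nF) : x ≤ (2 + ε) * 2 * nQ := by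
  have h1 : (1 - e) * nF ≤ nQ := by linarith
  have h2 : (2 + e) ≤ (2 + ε) * (1 - e) := by nlinarith
  have h3 : (2 + e) * nF ≤ (2 + ε) * ((1 - e) * nF) := by
    rw [← mul_assoc]
    exact mul_le_mul_of_nonneg_right h2 hF0
  have h4 : (2 + ε) * ((1 - e) * nF) ≤ (2 + ε) * nQ := mul_le_mul_of_nonneg_left h1 (by linarith)
  linarith

/-- real numbers: the shares -/
theorem ar2 {ε e M al nF nQ s t : ℝ} (he : 0 < e) (he1 : e ≤ 1 / 2) (heM : e * (4 + 2 * M) ≤ ε)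
    (hal : |al| ≤ M) (hF0 : 0 ≤ nF) (hQF : nQ ≤ nF) (hF : nF ≤ nQ + e * nF) (h1 : |t - al * nF| ≤ e * nF)
    (h2 : |s - t| ≤ e * nF) : |s - al * nQ| ≤ ε * nQ := by
  have hM : 0 ≤ M := (abs_nonneg _).trans hal
  have h3 : nF ≤ 2 * nQ := by nlinarith
  have h4 : |al * nF - al * nQ| ≤ M * (e * nF) := by
    rw [← mul_sub, abs_mul]
    refine mul_le_mul hal ?_ (abs_nonneg _) hM
    rw [abs_of_nonneg (by linarith)]
    linarith
  have h5 : s - al * nQ = (s - t) + (t - al * nF) + (al * nF - al * nQ) := by ring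
  have h6 : |s - al * nQ| ≤ e * nF + e * nF + M * (e * nF) := by
    rw [h5]
    exact (abs_add_three _ _ _).trans (add_le_add (add_le_add h2 h1) h4)
  have hQ0 : 0 ≤ nQ := by linarith
  have h7 : e * nF + e * nF + M * (e * nF) = e * (2 + M) * nF := by ring
  have h8 : e * (2 + M) * nF ≤ e * (2 + M) * (2 * nQ) := mul_le_mul_of_nonneg_left h3 (by positivity)
  have h9 : e * (2 + M) * (2 * nQ) = e * (4 + 2 * M) * nQ := by ring
  have h10 : e * (4 + 2 * M) * nQ ≤ ε * nQ := mul_le_mul_of_nonneg_right heM hQ0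
  linarith

theorem qlaw (hLAWX : S_LAWX) (hBASE2 : S_BASE2) (hLOC2 : S_LOC2) (hHS22 : S_HS22) (hB : S_BAS)
    (hQLOC : S_QLOC) (hQEISO : S_QEISO) (hVAL : S_VAL) (hUNQ : S_UNQ) (hIDX2 : S_IDX2) (hQCX : S_QCX)
    (hQSP : S_QSP) : S_QLAW := by
  classical
  intro F _ _ i hi
  haveI : Fact (Nat.Prime 2) := ⟨Nat.prime_two⟩
  have hζ : IsPrimitiveRoot (-1 : F) 2 := IsPrimitiveRoot.neg_one 0 (by norm_num)
  have hHi : Hi 2 F := fun _ => ⟨i, hi⟩
  have PB := hBASE2 F i (-1) hi hζ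
  have PL := hLOC2 F i hi
  obtain ⟨t, ht⟩ := hHS22 F i (-1) hi hζ
  obtain ⟨y1, hy1⟩ := hLAWX 2 F (-1) hζ hHi PB PL t ht
  obtain ⟨y2, hy2⟩ := hUNQ 2 F (-1) PB
  refine ⟨max y1 y2, fun y hy D0 hD0 R ε hε => ?_⟩
  obtain ⟨hyp, hyu, hyg⟩ := hy2 y (le_trans (le_max_right _ _) hy)
  have hSfin : {v : HeightOneSpectrum (𝓞 F) | Sm y v}.Finite := (PL y hyp).1
  have hloc : LocX 2 t y (fun v => AQ v D0) (fun v => dv 2 v / 2) :=
    { ne := fun v a _ h => h.1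
      mul := fun v a b _ ha hb => (hQLOC F i hi v D0 hD0).2.2.2.1 a b ha hb
      pow := fun v b _ hb => by
        have h1 := (hQLOC F i hi v D0 hD0).1 1 b (hQLOC F i hi v D0 hD0).2.2.2.2 hb
        rwa [one_mul] at h1
      iso := fun v a b _ ha hb => hQEISO F i (-1) hi hζ t ht v D0 a b hD0 ha hb
      num := fun v _ => hIDX2 F i hi v D0 hD0
      zero := fun v hv => by
        have h1 : dv 2 v = 0 := by
          unfold dv
          exact if_neg fun h2 => hv ⟨2, Nat.prime_two, hyp, h2⟩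
        rw [h1] }
  have hsum := (hVAL 2 F (-1) hζ hHi).2
  have hAD : ∀ v : HeightOneSpectrum (𝓞 F), Sm y v → AQ v D0 D0 := by
    intro v _
    have h1 := (hQLOC F i hi v D0 hD0).2.2.1 1 (hQLOC F i hi v D0 hD0).2.2.2.2
    rwa [one_mul] at h1
  -- the constants
  obtain ⟨M, hM⟩ : ∃ M : ℝ, M = ∑ r ∈ range (R + 1), |al 2 r| := ⟨_, rfl⟩
  have hM0 : 0 ≤ M := by rw [hM]; exact Finset.sum_nonneg fun _ _ => abs_nonneg _
  have hMr : ∀ r ≤ R, |al 2 r| ≤ M := by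
    intro r hr
    rw [hM]
    exact Finset.single_le_sum (f := fun r => |al 2 r|) (fun _ _ => abs_nonneg _) (Finset.mem_range.2 (by omega))
  obtain ⟨e, he, he1, he2, he3⟩ : ∃ e : ℝ, 0 < e ∧ e ≤ 1 / 2 ∧ e * (4 + 2 * M) ≤ ε ∧ e * (3 + ε) ≤ ε := by
    refine ⟨min (1 / 2) (min (ε / (4 + 2 * M)) (ε / (3 + ε))), ?_, min_le_left _ _, ?_, ?_⟩
    · refine lt_min (by norm_num) (lt_min (by positivity) (by positivity))
    · have h1 : min (1 / 2) (min (ε / (4 + 2 * M)) (ε / (3 + ε))) ≤ ε / (4 + 2 * M) :=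
        (min_le_right _ _).trans (min_le_left _ _)
      exact (mul_le_mul_of_nonneg_right h1 (by positivity)).trans (le_of_eq (div_mul_cancel₀ _ (by positivity)))
    · have h1 : min (1 / 2) (min (ε / (4 + 2 * M)) (ε / (3 + ε))) ≤ ε / (3 + ε) :=
        (min_le_right _ _).trans (min_le_right _ _)
      exact (mul_le_mul_of_nonneg_right h1 (by positivity)).trans (le_of_eq (div_mul_cancel₀ _ (by positivity)))
  obtain ⟨k0, hk0⟩ := hy1 y (le_trans (le_max_left _ _) hy) (fun v => AQ v D0) (fun v => dv 2 v / 2) hloc hsum D0 hD0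
    hAD R e he
  refine ⟨max k0 1, fun k hk => ?_⟩
  have hk1 : 0 < k := lt_of_lt_of_le Nat.one_pos (le_trans (le_max_right _ _) hk)
  refine nest_mono k (fun X hX => ?_) (hk0 k (le_trans (le_max_left _ _) hk) (fun _ => 1) fun _ => one_ne_zero)
  obtain ⟨hfin, hpos, hr, hspn, hmean⟩ := hX
  -- the equivalence of the conditions
  have key : ∀ q : Fin k → HeightOneSpectrum (𝓞 F), q ∈ (Box y X : Set (Fin k → HeightOneSpectrum (𝓞 F))) →
      ∀ D D' : F, Fits 2 y D0 (fun _ => 1) q D → QFits y D0 q D' →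
      (fun a : F => ∀ v : HeightOneSpectrum (𝓞 F), AQ v D' a) = CondX 2 y (fun v => AQ v D0) D := by
    intro q hq D D' hD hD'
    funext a
    refine propext ?_
    rw [cond_iff hB hQLOC hQCX hi hζ hyp hD0 hq.1 (fun j => (hq.2 j).1) hD' (q ⟨0, hk1⟩) a]
    obtain ⟨s, hs, e1⟩ := fits_sq hB hyu hD0 hD (fits_of_q hB hq.1 hD')
    constructor
    · intro h
      have h1 := condX_sq hB hD'.ne (inv_ne_zero hs) h
      have h2 : D' * s⁻¹ ^ 2 = D := by
        rw [e1]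
        field_simp
      rwa [h2] at h1
    · intro h
      rw [e1]
      exact condX_sq hB hD.ne hs h
  obtain ⟨SF, hSF⟩ : ∃ S : Set (Fin k → HeightOneSpectrum (𝓞 F)), S = {q ∈ (Box y X :
    Set (Fin k → HeightOneSpectrum (𝓞 F))) | ∃ D, Fits 2 y D0 (fun _ => 1) q D} := ⟨_, rfl⟩
  obtain ⟨SQ, hSQ⟩ : ∃ S : Set (Fin k → HeightOneSpectrum (𝓞 F)), S = {q ∈ (Box y X :
    Set (Fin k → HeightOneSpectrum (𝓞 F))) | ∃ D, QFits y D0 q D} := ⟨_, rfl⟩
  obtain ⟨SN, hSN⟩ : ∃ S : Set (Fin k → HeightOneSpectrum (𝓞 F)), S = {q ∈ (Box y X :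
    Set (Fin k → HeightOneSpectrum (𝓞 F))) | (∃ D, Fits 2 y D0 (fun _ => 1) q D) ∧ ¬ Spn 2 y q} := ⟨_, rfl⟩
  rw [← hSF] at hpos hspn
  rw [← hSN] at hspn
  rw [← hSQ]
  have fSF : SF.Finite := hfin.subset (by rw [hSF]; exact fun q hq => hq.1)
  have fSQ : SQ.Finite := hfin.subset (by rw [hSQ]; exact fun q hq => hq.1)
  have fSN : SN.Finite := hfin.subset (by rw [hSN]; exact fun q hq => hq.1)
  have hsub : SQ ⊆ SF := by
    rw [hSQ, hSF]
    rintro q ⟨hq, D, hD⟩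
    exact ⟨hq, D, fits_of_q hB hq.1 hD⟩
  have hdiff : ∀ q, q ∈ SF → q ∉ SQ → q ∈ SN := by
    rw [hSQ, hSF, hSN]
    rintro q ⟨hq, D, hD⟩ hn
    refine ⟨hq, ⟨D, hD⟩, fun hsp => hn ⟨hq, ?_⟩⟩
    obtain ⟨s, hs, hs2⟩ := hQSP F y hSfin hyg k q hq.1 (fun j => (hq.2 j).1) hsp D0 D hD0 hD
    exact ⟨_, hs2⟩
  have c1 : (SQ.ncard : ℝ) ≤ SF.ncard := by exact_mod_cast Set.ncard_le_ncard hsub fSF
  have c2 : (SF.ncard : ℝ) ≤ SQ.ncard + e * SF.ncard := by
    have h1 : SF.ncard ≤ (SQ ∪ SN).ncard := Set.ncard_le_ncard (fun q hq => by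
      by_cases h : q ∈ SQ
      · exact Or.inl h
      · exact Or.inr (hdiff q hq h)) (fSQ.union fSN)
    have h2 := Set.ncard_union_le SQ SN
    have h3 : (SF.ncard : ℝ) ≤ SQ.ncard + SN.ncard := by exact_mod_cast h1.trans h2
    linarith
  have hF0 : (0 : ℝ) ≤ SF.ncard := Nat.cast_nonneg _
  refine ⟨hfin, ?_, ?_, ?_⟩
  · have h1 : e * SF.ncard ≤ 1 / 2 * SF.ncard := mul_le_mul_of_nonneg_right he1 hF0
    linarith
  · intro r hrR
    have h1 := hr r hrR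
    rw [← hSF] at h1
    refine ar2 he he1 he2 (hMr r hrR) hF0 c1 c2 h1 ?_
    obtain ⟨S1, hS1⟩ : ∃ S : Set (Fin k → HeightOneSpectrum (𝓞 F)), S = {q ∈ (Box y X :
      Set (Fin k → HeightOneSpectrum (𝓞 F))) | (∃ D, QFits y D0 q D) ∧
          ∀ D, QFits y D0 q D → HasN 2 (fun a : F => ∀ v : HeightOneSpectrum (𝓞 F), AQ v D a) (2 ^ (r + 1))} := ⟨_, rfl⟩
    obtain ⟨S2, hS2⟩ : ∃ S : Set (Fin k → HeightOneSpectrum (𝓞 F)), S = {q ∈ (Box y X :
      Set (Fin k → HeightOneSpectrum (𝓞 F))) | ∃ D, Fits 2 y D0 (fun _ => 1) q D ∧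
          HasN 2 (CondX 2 y (fun v => AQ v D0) D) (2 ^ (r + 1))} := ⟨_, rfl⟩
    rw [← hS1, ← hS2]
    have fS1 : S1.Finite := hfin.subset (by rw [hS1]; exact fun q hq => hq.1)
    have fS2 : S2.Finite := hfin.subset (by rw [hS2]; exact fun q hq => hq.1)
    have h12 : S1 ⊆ S2 := by
      rw [hS1, hS2]
      rintro q ⟨hq, ⟨D, hD⟩, hN⟩
      refine ⟨hq, D, fits_of_q hB hq.1 hD, ?_⟩
      rw [← key q hq D D (fits_of_q hB hq.1 hD) hD]
      exact hN D hD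
    have h21 : S2 ⊆ S1 ∪ SN := by
      intro q hq2
      by_cases hqQ : q ∈ SQ
      · left
        rw [hS2] at hq2
        rw [hSQ] at hqQ
        obtain ⟨hq, D, hD, hN⟩ := hq2
        rw [hS1]
        refine ⟨hq, hqQ.2, fun D' hD' => ?_⟩
        rw [key q hq D D' hD hD']
        exact hN
      · right
        refine hdiff q ?_ hqQ
        rw [hS2] at hq2
        obtain ⟨hq, D, hD, hN⟩ := hq2
        rw [hSF]
        exact ⟨hq, D, hD⟩
    have d1 : (S1.ncard : ℝ) ≤ S2.ncard := by exact_mod_cast Set.ncard_le_ncard h12 fS2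
    have d2 : (S2.ncard : ℝ) ≤ S1.ncard + SN.ncard := by
      have h3 := Set.ncard_le_ncard h21 (fS1.union fSN)
      exact_mod_cast h3.trans (Set.ncard_union_le S1 SN)
    rw [abs_sub_comm, abs_of_nonneg (by linarith)]
    linarith
  · intro B N hB1 hB2
    have h1 := hmean B N hB1 fun q hq => by
      obtain ⟨D, hD, hN⟩ := hB2 q hq
      refine ⟨D, fits_of_q hB (hB1 q hq).1 hD, ?_⟩
      rw [← key q (hB1 q hq) D D (fits_of_q hB (hB1 q hq).1 hD) hD]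
      exact hN
    rw [← hSF] at h1
    refine ar1 hε he he3 (Nat.cast_nonneg _) hF0 c2 ?_
    exact_mod_cast h1

end Pool.Agent.Q153.EN
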